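/-
helper84. MAD, row GRW (MP_83008e_co, S09809): growth of the energy in the whole graph.
-/
import Pool.Agent.H20.MAD.Def

set_option autoImplicit false

namespace Pool.MAD

open Finset
open scoped Classical

theorem t_grw (hC : CNTStmt) (hW : WLKStmt) (hM : MINStmt) : GRWStmt := by
  intro V _ N n A T u hN hA hn
  obtain ⟨-, -, -, -, -, -, hC7⟩ := hC V
  obtain ⟨hW1, -, -, -, -, -, hW7⟩ := hW V N hN
  have hmp := hM V n A (Wk N univ T u) hA (hW1 univ T u)
  obtain ⟨hPln, -⟩ := hmp
  have hmv : mv N n A univ T u = cv (Wk N univ T u) (mp n A (Wk N univ T u)) := by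
    simp [mv]
  rw [hmv]
  set W := Wk N univ T u with hWd
  set P := mp n A W with hPd
  have hsum : ∑ x : V, cv W P [x] = T := by
    unfold cv
    rw [Finset.sum_comm]
    have h1 : ∀ w ∈ W, ∑ x : V, P w * cnt [x] w = P w * T := by
      intro w hw
      rw [← Finset.mul_sum, hC7, hW7 T u w hw]
    rw [Finset.sum_congr rfl h1, ← Finset.sum_mul, hPln.tot, one_mul]
  have hcs : (∑ x : V, cv W P [x]) ^ 2 ≤ Fintype.card V * ∑ x : V, cv W P [x] ^ 2 := by
    have := sq_sum_le_card_mul_sum_sq (s := (univ : Finset V)) (f := fun x => cv W P [x])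
    simpa using this
  have hle : ∑ x : V, cv W P [x] ^ 2 ≤ En n A (cv W P) := by
    unfold En
    have hinj : Function.Injective fun x : V => [x] := fun x y h => by simpa using h
    have h1 : ∑ x : V, cv W P [x] ^ 2 =
        ∑ y ∈ (univ : Finset V).image (fun x : V => [x]), A ^ (y.length - 1) * cv W P y ^ 2 := by
      rw [Finset.sum_image fun x _ y _ h => hinj h]
      refine Finset.sum_congr rfl fun x _ => ?_
      simp
    rw [h1]
    refine Finset.sum_le_sum_of_subset_of_nonneg ?_ fun y _ _ => by positivity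
    intro y hy
    obtain ⟨x, -, rfl⟩ := Finset.mem_image.1 hy
    simp [ch, hn]
  calc (T : ℝ) ^ 2 = (∑ x : V, cv W P [x]) ^ 2 := by rw [hsum]
    _ ≤ Fintype.card V * ∑ x : V, cv W P [x] ^ 2 := hcs
    _ ≤ Fintype.card V * En n A (cv W P) := mul_le_mul_of_nonneg_left hle (Nat.cast_nonneg _)

end Pool.MAD
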