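/-
helper84. MAD, row RIC (MP_83008e_co, S09809): the set of the good points is rich.
-/
import Pool.Agent.H20.MAD.Def

set_option autoImplicit false

namespace Pool.MAD

open Finset
open scoped Classical

theorem t_ric (hP : PARStmt) (hW : WLKStmt) (hM : MINStmt) : RICStmt := by
  intro V _ N n A g B T v hN hA hv hr0 hAr hmax hg hg1
  set r := En n A (mv N n A B T v) with hr
  have hnn : ∀ f : List V → ℝ, nm n A f = Real.sqrt (En n A f) := fun f => rfl
  by_contra hlt
  rw [not_le] at hlt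
  set U := Ug N n A B T v g with hU
  have hUB : U ⊆ B := Finset.filter_subset _ _
  have hvU : v ∈ U := by
    rw [hU, Ug, Finset.mem_filter]
    refine ⟨hv, ?_⟩
    have h0 : (fun y => mv N n A B T v y - mv N n A B T v y) = fun _ => (0 : ℝ) := by
      funext y
      ring
    have h1 : nm n A (fun y => mv N n A B T v y - mv N n A B T v y) = 0 := by
      rw [h0, hnn]
      simp [En]
    rw [h1]
    exact mul_nonneg hg.le (Real.sqrt_nonneg _)
  obtain ⟨hW1, -, -, -, -, hW6, -⟩ := hW V N hN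
  have hne := hW1 U T v
  have hmp := hM V n (2 * A) (Wk N U T v) (by positivity) hne
  obtain ⟨hPln, -⟩ := hmp
  have hmv : mv N n (2 * A) U T v =
      cv (Wk N U T v) (mp n (2 * A) (Wk N U T v)) := by
    simp [mv, hvU]
  rw [hmv] at hlt
  have hnm : nm n (2 * A) (cv (Wk N U T v) (mp n (2 * A) (Wk N U T v))) ≤
      g ^ 4 / 80000 * Real.sqrt r := by
    have h1 : nm n (2 * A) (cv (Wk N U T v) (mp n (2 * A) (Wk N U T v))) ≤
        Real.sqrt ((g ^ 4 / 80000) ^ 2 * r) := Real.sqrt_le_sqrt hlt.le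
    refine h1.trans (le_of_eq ?_)
    rw [Real.sqrt_mul (by positivity), Real.sqrt_sq (by positivity)]
  have hg2 : g ^ 2 ≤ 1 := pow_le_one₀ hg.le hg1
  have hg4 : g ^ 4 ≤ g ^ 2 := by
    have : g ^ 4 = g ^ 2 * g ^ 2 := by ring
    rw [this]
    nlinarith [sq_nonneg g]
  have key := hP V N n A r 0 (g ^ 4 / 80000) (g ^ 2 / 100) U B T T v
    (mp n (2 * A) (Wk N U T v)) hN hA hr0 hAr hUB le_rfl hvU hmax le_rfl (by positivity)
    (by nlinarith) (by positivity) (by nlinarith) (by nlinarith)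
    (by rw [sub_zero, one_mul, hnn]) hPln hnm
  have e1 : 2 * (0 + 2 * (g ^ 4 / 80000)) / (g ^ 2 / 100) ^ 2 = 1 / 2 := by
    have : g ≠ 0 := hg.ne'
    field_simp
    ring
  rw [e1] at key
  have hsub : (Wk N U T v).filter (fun w => ¬ (lst v w ∈ B ∧ w.length < T ∧
        nm n A (fun y => mv N n A B T (lst v w) y - mv N n A B T v y) ≤
          10 * Real.sqrt (g ^ 2 / 100) * Real.sqrt r)) = Wk N U T v := by
    refine Finset.filter_true_of_mem fun w hw => ?_
    rintro ⟨h1, h2, h3⟩
    refine hW6 U T v hvU w hw h2 ?_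
    rw [hU, Ug, Finset.mem_filter]
    refine ⟨h1, h3.trans (le_of_eq ?_)⟩
    have h4 : Real.sqrt (g ^ 2 / 100) = g / 10 := by
      rw [show g ^ 2 / 100 = (g / 10) ^ 2 by ring]
      exact Real.sqrt_sq (by positivity)
    rw [h4, hnn, ← hr]
    ring
  rw [hsub, hPln.tot] at key
  norm_num at key

end Pool.MAD
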